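import Pool.Agent.Lib_helper93.RingDef.Partrec

set_option autoImplicit false
set_option linter.unusedSectionVars false
set_option linter.unusedVariables false

/-!
# Undecidability of the theory of a ring in which the natural numbers are definable
-/

namespace Pool.Agent.RingDef

open FirstOrder FirstOrder.Ring FirstOrder.Language

/-- Gödel numbers of sentences of the language of rings. -/
def gcode (e : (Σ i, Language.ring.Functions i) → ℕ) (φ : Language.ring.Sentence) : ℕ :=
  Encodable.encode
    (φ.listEncode.map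
      (Sum.map
        (fun t => (⟨t.1, t.2.listEncode.map (Sum.map id e)⟩ :
          Σ k : ℕ, List ((Empty ⊕ Fin k) ⊕ ℕ)))
        (Sum.map (fun r => r.1) id)))

theorem gcode_injective {e : (Σ i, Language.ring.Functions i) → ℕ}
    (he : Function.Injective e) : Function.Injective (gcode e) := by
  intro φ ψ h
  unfold gcode at h
  have h1 := Encodable.encode_injective h
  have h2 := List.map_injective_iff.mpr ?_ h1
  · have h3 := BoundedFormula.listEncode_sigma_injective (L := Language.ring) (α := Empty)
      (a₁ := ⟨0, φ⟩) (a₂ := ⟨0, ψ⟩) h2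
    exact eq_of_heq (Sigma.mk.inj h3).2
  · refine Sum.map_injective.mpr ⟨?_, Sum.map_injective.mpr ⟨?_, Function.injective_id⟩⟩
    · rintro ⟨k, t⟩ ⟨k', t'⟩ h
      simp only [Sigma.mk.injEq] at h
      obtain ⟨rfl, h⟩ := h
      have h := eq_of_heq h
      have h4 := List.map_injective_iff.mpr (Sum.map_injective.mpr ⟨Function.injective_id, he⟩) h
      rw [Term.listEncode_injective h4]
    · rintro ⟨k, r⟩
      exact r.elim

/-- Numerals. -/
def numT : ℕ → Language.ring.Term (Empty ⊕ Fin 1)
  | 0 => Term.func zeroFunc ![]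
  | n + 1 => Term.func addFunc ![Term.func oneFunc ![], numT n]

theorem realize_numT {R : Type} [CommRing R] [CompatibleRing R] (n : ℕ)
    (v : Empty ⊕ Fin 1 → R) : (numT n).realize v = n := by
  induction n with
  | zero =>
    rw [numT, Term.realize]
    simp [CompatibleRing.funMap_zero]
  | succ n ih =>
    rw [numT, Term.realize]
    rw [CompatibleRing.funMap_add]
    simp [ih, CompatibleRing.funMap_one]
    ring

/-- The list that codes a numeral. -/
theorem listEncode_numT (e : (Σ i, Language.ring.Functions i) → ℕ) (n : ℕ) :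
    (numT (n + 1)).listEncode.map (Sum.map id e) =
      Sum.inr (e ⟨2, addFunc⟩) :: Sum.inr (e ⟨0, oneFunc⟩) ::
        (numT n).listEncode.map (Sum.map id e) := by
  rw [numT, Term.listEncode]
  simp [Term.listEncode, List.finRange_succ]

/-- The sentence `∀ x, x = n → φ x`. -/
def sent (φ : Language.ring.BoundedFormula Empty 1) (n : ℕ) : Language.ring.Sentence :=
  BoundedFormula.all (BoundedFormula.imp
    (BoundedFormula.equal (Term.var (Sum.inr 0)) (numT n)) φ)

theorem realize_sent {R : Type} [CommRing R] [CompatibleRing R]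
    (φ : Language.ring.BoundedFormula Empty 1) (n : ℕ) :
    R ⊨ sent φ n ↔ φ.Realize default (fun _ => (n : R)) := by
  have hs : ∀ x : R, (Fin.snoc (default : Fin 0 → R) x : Fin 1 → R) = fun _ => x := by
    intro x
    funext i
    fin_cases i
    rfl
  have h1 : ∀ x : R, ((BoundedFormula.imp (BoundedFormula.equal (Term.var (Sum.inr 0)) (numT n))
      φ).Realize default (Fin.snoc (default : Fin 0 → R) x)) ↔
      (x = n → φ.Realize default (fun _ => x)) := by
    intro x
    rw [hs, BoundedFormula.realize_imp]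
    change ((Term.var (Sum.inr 0) : Language.ring.Term (Empty ⊕ Fin 1)).realize
      (Sum.elim (default : Empty → R) (fun _ : Fin 1 => x)) =
      (numT n).realize (Sum.elim (default : Empty → R) (fun _ : Fin 1 => x)) → _) ↔ _
    rw [realize_numT]
    rfl
  have h2 : R ⊨ sent φ n ↔ ∀ x : R, ((BoundedFormula.imp
      (BoundedFormula.equal (Term.var (Sum.inr 0)) (numT n))
      φ).Realize default (Fin.snoc (default : Fin 0 → R) x)) := Iff.rfl
  rw [h2]
  constructor
  · intro h
    exact (h1 n).mp (h n) rfl
  · intro h x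
    rw [h1]
    rintro rfl
    exact h

/-- The code of the `n`-th numeral. -/
def lnum (e : (Σ i, Language.ring.Functions i) → ℕ) (n : ℕ) : ℕ :=
  Encodable.encode ((numT n).listEncode.map (Sum.map id e))

theorem primrec_lnum (e : (Σ i, Language.ring.Functions i) → ℕ) : Primrec (lnum e) := by
  let a := Encodable.encode (Sum.inr (e ⟨2, addFunc⟩) : (Empty ⊕ Fin 1) ⊕ ℕ)
  let b := Encodable.encode (Sum.inr (e ⟨0, oneFunc⟩) : (Empty ⊕ Fin 1) ⊕ ℕ)
  have h1 : ∀ n, lnum e (n + 1) = Nat.succ (Nat.pair a (Nat.succ (Nat.pair b (lnum e n)))) := by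
    intro n
    unfold lnum
    rw [listEncode_numT, Encodable.encode_list_cons, Encodable.encode_list_cons]
  have h2 : lnum e = fun n => Nat.rec (lnum e 0)
      (fun _ x => Nat.succ (Nat.pair a (Nat.succ (Nat.pair b x)))) n := by
    funext n
    induction n with
    | zero => rfl
    | succ n ih => rw [h1, ih]
  rw [h2]
  refine Primrec.nat_rec₁ (lnum e 0) ?_
  exact Primrec.succ.comp (Primrec₂.natPair.comp (Primrec.const a)
    (Primrec.succ.comp (Primrec₂.natPair.comp (Primrec.const b) Primrec.snd)))

theorem primrec_gcode_sent (e : (Σ i, Language.ring.Functions i) → ℕ)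
    (φ : Language.ring.BoundedFormula Empty 1) : Primrec (fun n => gcode e (sent φ n)) := by
  let g : ((Σ k, Language.ring.Term (Empty ⊕ Fin k)) ⊕ ((Σ n, Language.ring.Relations n) ⊕ ℕ)) →
      ((Σ k : ℕ, List ((Empty ⊕ Fin k) ⊕ ℕ)) ⊕ (ℕ ⊕ ℕ)) := (Sum.map
        (fun t => (⟨t.1, t.2.listEncode.map (Sum.map id e)⟩ :
          Σ k : ℕ, List ((Empty ⊕ Fin k) ⊕ ℕ)))
        (Sum.map (fun r => r.1) id))
  let k₁ := Encodable.encode (g (Sum.inr (Sum.inr 1)))
  let k₂ := Encodable.encode (g (Sum.inr (Sum.inr 0)))
  let k₃ := Encodable.encode (g (Sum.inl ⟨1, Term.var (Sum.inr 0)⟩))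
  let k₄ := Encodable.encode (φ.listEncode.map g)
  have h1 : ∀ n, gcode e (sent φ n) = Nat.succ (Nat.pair k₁ (Nat.succ (Nat.pair k₂
      (Nat.succ (Nat.pair k₃ (Nat.succ (Nat.pair (2 * Nat.pair 1 (lnum e n)) k₄))))))) := by
    intro n
    rfl
  refine Primrec.of_eq ?_ (fun n => (h1 n).symm)
  have h2 := primrec_lnum e
  exact Primrec.succ.comp (Primrec₂.natPair.comp (Primrec.const k₁)
    (Primrec.succ.comp (Primrec₂.natPair.comp (Primrec.const k₂)
      (Primrec.succ.comp (Primrec₂.natPair.comp (Primrec.const k₃)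
        (Primrec.succ.comp (Primrec₂.natPair.comp (Primrec.nat_mul.comp (Primrec.const 2)
          (Primrec₂.natPair.comp (Primrec.const 1) h2)) (Primrec.const k₄))))))))

/-- If the natural numbers are definable in a ring of characteristic zero, then the set of
Gödel numbers of the sentences that hold in the ring is not computable. -/
theorem not_computablePred {R : Type} [CommRing R] [CharZero R] [CompatibleRing R]
    (hN : NatDef R) {e : (Σ i, Language.ring.Functions i) → ℕ} (he : Function.Injective e) :
    ¬ ComputablePred (fun n : ℕ => ∃ φ : Language.ring.Sentence, gcode e φ = n ∧ R ⊨ φ) := by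
  intro hcomp
  let f0 : ℕ →. ℕ := fun n => Nat.Partrec.Code.eval (Denumerable.ofNat Nat.Partrec.Code n) 0
  have hf0 : Nat.Partrec f0 := by
    rw [← Partrec.nat_iff]
    exact Nat.Partrec.Code.eval_part.comp (Computable.ofNat _) (Computable.const 0)
  have hD : D R (fun v : Unit → ℕ => ∃ x, x ∈ f0 (v ())) := by
    refine D.ex hN (S := fun (v : Unit → ℕ) x => x ∈ f0 (v ())) ?_
    exact (D.relabel (DP.of_partrec hN hf0) (![some (), none] : Fin 2 → Option Unit)).congr
      fun v => Iff.rfl
  obtain ⟨φ, hφ⟩ := hD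
  let φ' : Language.ring.BoundedFormula Empty 1 :=
    BoundedFormula.relabel (fun _ : Unit => (Sum.inr 0 : Empty ⊕ Fin 1)) φ
  have hφ' : ∀ n : ℕ, R ⊨ sent φ' n ↔ (f0 n).Dom := by
    intro n
    rw [realize_sent, Part.dom_iff_mem]
    refine Iff.trans ?_ (hφ (fun _ => n))
    unfold Formula.Realize
    rw [BoundedFormula.realize_relabel]
    apply iff_of_eq
    congr 1
    funext i
    exact i.elim0
  apply ComputablePred.halting_problem 0
  refine ComputablePred.computable_of_manyOneReducible ?_ hcomp
  refine ⟨fun c => gcode e (sent φ' (Encodable.encode c)), ?_, ?_⟩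
  · exact (primrec_gcode_sent e φ').to_comp.comp Computable.encode
  · intro c
    have h1 : (f0 (Encodable.encode c)).Dom ↔ (Nat.Partrec.Code.eval c 0).Dom := by
      simp only [f0, Denumerable.ofNat_encode]
    refine (h1.symm.trans (hφ' _).symm).trans ?_
    constructor
    · intro h
      exact ⟨_, rfl, h⟩
    · rintro ⟨ψ, h, h'⟩
      rw [← gcode_injective he h]
      exact h'

end Pool.Agent.RingDef
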