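import Mathlib

set_option autoImplicit false
set_option linter.unusedSectionVars false
set_option linter.unusedVariables false

/-!
# Relations definable without parameters in a ring
-/

namespace Pool.Agent.RingDef

open FirstOrder FirstOrder.Ring FirstOrder.Language

section Ring

variable {R : Type} [CommRing R] [CompatibleRing R] {α β : Type}

/-- Definable relations on `R` (without parameters). -/
def E (S : (α → R) → Prop) : Prop :=
  ∃ φ : Language.ring.Formula α, ∀ v, φ.Realize v ↔ S v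

/-- Functions given by terms. -/
def ET (t : (α → R) → R) : Prop :=
  ∃ τ : Language.ring.Term α, ∀ v, τ.realize v = t v

theorem E.congr {S T : (α → R) → Prop} (h : E S) (e : ∀ v, S v ↔ T v) : E T := by
  obtain ⟨φ, hφ⟩ := h
  exact ⟨φ, fun v => (hφ v).trans (e v)⟩

theorem ET.var (i : α) : ET (fun v : α → R => v i) := ⟨Term.var i, fun v => rfl⟩

theorem ET.zero : ET (fun _ : α → R => 0) := ⟨0, fun v => realize_zero v⟩

theorem ET.one : ET (fun _ : α → R => 1) := ⟨1, fun v => realize_one v⟩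

theorem ET.add {s t : (α → R) → R} (hs : ET s) (ht : ET t) : ET (fun v => s v + t v) := by
  obtain ⟨σ, hσ⟩ := hs
  obtain ⟨τ, hτ⟩ := ht
  exact ⟨σ + τ, fun v => by rw [realize_add, hσ, hτ]⟩

theorem ET.mul {s t : (α → R) → R} (hs : ET s) (ht : ET t) : ET (fun v => s v * t v) := by
  obtain ⟨σ, hσ⟩ := hs
  obtain ⟨τ, hτ⟩ := ht
  exact ⟨σ * τ, fun v => by rw [realize_mul, hσ, hτ]⟩

theorem ET.neg {t : (α → R) → R} (ht : ET t) : ET (fun v => -t v) := by
  obtain ⟨τ, hτ⟩ := ht
  exact ⟨-τ, fun v => by rw [realize_neg, hτ]⟩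

theorem ET.relabel {t : (α → R) → R} (ht : ET t) (f : α → β) :
    ET (fun v : β → R => t (v ∘ f)) := by
  obtain ⟨τ, hτ⟩ := ht
  exact ⟨τ.relabel f, fun v => by rw [Term.realize_relabel, hτ]⟩

theorem E.eq {s t : (α → R) → R} (hs : ET s) (ht : ET t) : E (fun v => s v = t v) := by
  obtain ⟨σ, hσ⟩ := hs
  obtain ⟨τ, hτ⟩ := ht
  exact ⟨σ.equal τ, fun v => by rw [Formula.realize_equal, hσ, hτ]⟩

theorem E.not {S : (α → R) → Prop} (h : E S) : E (fun v => ¬ S v) := by
  obtain ⟨φ, hφ⟩ := h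
  exact ⟨φ.not, fun v => by rw [Formula.realize_not, hφ]⟩

theorem E.and {S T : (α → R) → Prop} (h : E S) (h' : E T) : E (fun v => S v ∧ T v) := by
  obtain ⟨φ, hφ⟩ := h
  obtain ⟨ψ, hψ⟩ := h'
  exact ⟨φ ⊓ ψ, fun v => by rw [Formula.realize_inf, hφ, hψ]⟩

theorem E.imp {S T : (α → R) → Prop} (h : E S) (h' : E T) : E (fun v => S v → T v) := by
  obtain ⟨φ, hφ⟩ := h
  obtain ⟨ψ, hψ⟩ := h'
  exact ⟨φ.imp ψ, fun v => by rw [Formula.realize_imp, hφ, hψ]⟩

theorem E.or {S T : (α → R) → Prop} (h : E S) (h' : E T) : E (fun v => S v ∨ T v) :=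
  (h.not.imp h').congr fun v => by tauto

theorem E.relabel {S : (α → R) → Prop} (h : E S) (f : α → β) :
    E (fun v : β → R => S (v ∘ f)) := by
  obtain ⟨φ, hφ⟩ := h
  exact ⟨φ.relabel f, fun v => by rw [Formula.realize_relabel, hφ]⟩

theorem E.exs [Finite β] {S : (α ⊕ β → R) → Prop} (h : E S) :
    E (fun v : α → R => ∃ w : β → R, S (Sum.elim v w)) := by
  obtain ⟨φ, hφ⟩ := h
  exact ⟨φ.iExs β, fun v => by simp only [Formula.realize_iExs, hφ]⟩

theorem E.forall_fin [Finite β] {S : β → (α → R) → Prop} (h : ∀ i, E (S i)) :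
    E (fun v => ∀ i, S i v) := by
  choose φ hφ using h
  exact ⟨Formula.iInf φ, fun v => by simp only [Formula.realize_iInf, hφ]⟩

/-- Existential quantification over one variable. -/
theorem E.ex {S : (α → R) → R → Prop}
    (h : E (fun v : Option α → R => S (fun i => v (some i)) (v none))) :
    E (fun v : α → R => ∃ x, S v x) := by
  let f : Option α → α ⊕ Unit := fun o => o.elim (Sum.inr ()) Sum.inl
  refine ((h.relabel f).exs).congr fun v => ?_
  constructor
  · rintro ⟨w, hw⟩
    exact ⟨w (), hw⟩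
  · rintro ⟨x, hx⟩
    exact ⟨fun _ => x, hx⟩

theorem E.all {S : (α → R) → R → Prop}
    (h : E (fun v : Option α → R => S (fun i => v (some i)) (v none))) :
    E (fun v : α → R => ∀ x, S v x) :=
  (E.ex (S := fun v x => ¬ S v x) h.not).not.congr fun v => by simp

end Ring

section Nat

variable {R : Type} [CommRing R] [CharZero R] [CompatibleRing R] {α β : Type}

/-- Relations on the natural numbers that are definable in `R`. -/
def D (R : Type) [CommRing R] [CompatibleRing R] {α : Type} (S : (α → ℕ) → Prop) : Prop :=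
  ∃ φ : Language.ring.Formula α, ∀ v : α → ℕ, φ.Realize (fun i => ((v i : ℕ) : R)) ↔ S v

theorem D.of_E {S : (α → R) → Prop} (h : E S) {T : (α → ℕ) → Prop}
    (e : ∀ v : α → ℕ, S (fun i => (v i : R)) ↔ T v) : D R T := by
  obtain ⟨φ, hφ⟩ := h
  exact ⟨φ, fun v => (hφ _).trans (e v)⟩

theorem D.congr {S T : (α → ℕ) → Prop} (h : D R S) (e : ∀ v, S v ↔ T v) : D R T := by
  obtain ⟨φ, hφ⟩ := h
  exact ⟨φ, fun v => (hφ v).trans (e v)⟩

theorem D.not {S : (α → ℕ) → Prop} (h : D R S) : D R (fun v => ¬ S v) := by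
  obtain ⟨φ, hφ⟩ := h
  exact ⟨φ.not, fun v => by rw [Formula.realize_not, hφ]⟩

theorem D.and {S T : (α → ℕ) → Prop} (h : D R S) (h' : D R T) : D R (fun v => S v ∧ T v) := by
  obtain ⟨φ, hφ⟩ := h
  obtain ⟨ψ, hψ⟩ := h'
  exact ⟨φ ⊓ ψ, fun v => by rw [Formula.realize_inf, hφ, hψ]⟩

theorem D.imp {S T : (α → ℕ) → Prop} (h : D R S) (h' : D R T) : D R (fun v => S v → T v) := by
  obtain ⟨φ, hφ⟩ := h
  obtain ⟨ψ, hψ⟩ := h'
  exact ⟨φ.imp ψ, fun v => by rw [Formula.realize_imp, hφ, hψ]⟩

theorem D.or {S T : (α → ℕ) → Prop} (h : D R S) (h' : D R T) : D R (fun v => S v ∨ T v) :=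
  (h.not.imp h').congr fun v => by tauto

theorem D.relabel {S : (α → ℕ) → Prop} (h : D R S) (f : α → β) :
    D R (fun v : β → ℕ => S (v ∘ f)) := by
  obtain ⟨φ, hφ⟩ := h
  exact ⟨φ.relabel f, fun v => by rw [Formula.realize_relabel]; exact hφ (v ∘ f)⟩

theorem D.forall_fin [Finite β] {S : β → (α → ℕ) → Prop} (h : ∀ i, D R (S i)) :
    D R (fun v => ∀ i, S i v) := by
  choose φ hφ using h
  exact ⟨Formula.iInf φ, fun v => by simp only [Formula.realize_iInf, hφ]⟩

/-- The natural numbers are definable in `R`. -/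
def NatDef (R : Type) [CommRing R] [CompatibleRing R] : Prop :=
  E (fun v : Unit → R => ∃ n : ℕ, v () = n)

theorem D.exs (hN : NatDef R) [Finite β] {S : (α ⊕ β → ℕ) → Prop} (h : D R S) :
    D R (fun v : α → ℕ => ∃ w : β → ℕ, S (Sum.elim v w)) := by
  obtain ⟨φ, hφ⟩ := h
  have h1 : E (fun v : α ⊕ β → R => ∀ b : β, ∃ n : ℕ, v (Sum.inr b) = n) :=
    E.forall_fin fun b => (hN.relabel (fun _ : Unit => (Sum.inr b : α ⊕ β))).congr fun v => Iff.rfl
  have h2 : E (fun v : α ⊕ β → R => φ.Realize v) := ⟨φ, fun v => Iff.rfl⟩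
  refine D.of_E (h1.and h2).exs fun v => ?_
  constructor
  · rintro ⟨w, hw, hw'⟩
    choose n hn using hw
    refine ⟨n, ?_⟩
    rw [← hφ]
    convert hw' using 2 with i
    rcases i with i | i
    · rfl
    · exact (hn i).symm
  · rintro ⟨w, hw⟩
    refine ⟨fun b => (w b : R), fun b => ⟨w b, rfl⟩, ?_⟩
    rw [← hφ] at hw
    convert hw using 2 with i
    rcases i with i | i <;> rfl

theorem D.ex (hN : NatDef R) {S : (α → ℕ) → ℕ → Prop}
    (h : D R (fun v : Option α → ℕ => S (fun i => v (some i)) (v none))) :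
    D R (fun v : α → ℕ => ∃ x, S v x) := by
  let f : Option α → α ⊕ Unit := fun o => o.elim (Sum.inr ()) Sum.inl
  refine ((h.relabel f).exs hN).congr fun v => ?_
  constructor
  · rintro ⟨w, hw⟩
    exact ⟨w (), hw⟩
  · rintro ⟨x, hx⟩
    exact ⟨fun _ => x, hx⟩

theorem D.all (hN : NatDef R) {S : (α → ℕ) → ℕ → Prop}
    (h : D R (fun v : Option α → ℕ => S (fun i => v (some i)) (v none))) :
    D R (fun v : α → ℕ => ∀ x, S v x) :=
  (D.ex hN (S := fun v x => ¬ S v x) h.not).not.congr fun v => by simp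

/-- Functions with definable graph. -/
def DF (R : Type) [CommRing R] [CompatibleRing R] {α : Type} (f : (α → ℕ) → ℕ) : Prop :=
  D R (fun v : Option α → ℕ => v none = f (fun i => v (some i)))

theorem DF.relabel {f : (α → ℕ) → ℕ} (h : DF R f) (g : α → β) :
    DF R (fun v : β → ℕ => f (v ∘ g)) :=
  (D.relabel h (Option.map g)).congr fun _ => Iff.rfl

theorem DF.lift {f : (α → ℕ) → ℕ} (h : DF R f) :
    DF R (fun v : Option α → ℕ => f (fun i => v (some i))) := h.relabel some

/-- Substitution. -/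
theorem D.subst (hN : NatDef R) [Finite β] {S : (β → ℕ) → Prop} (h : D R S)
    {f : β → (α → ℕ) → ℕ} (hf : ∀ b, DF R (f b)) : D R (fun v : α → ℕ => S (fun b => f b v)) := by
  have h1 : D R (fun v : α ⊕ β → ℕ => ∀ b : β, v (Sum.inr b) = f b (fun i => v (Sum.inl i))) :=
    D.forall_fin fun b =>
      (D.relabel (hf b) (fun o : Option α => (o.elim (Sum.inr b) Sum.inl : α ⊕ β))).congr
        fun v => Iff.rfl
  have h2 : D R (fun v : α ⊕ β → ℕ => S (fun b => v (Sum.inr b))) :=
    (h.relabel Sum.inr).congr fun v => Iff.rfl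
  refine ((h1.and h2).exs hN).congr fun v => ?_
  constructor
  · rintro ⟨w, hw, hw'⟩
    have : (fun b => f b v) = w := funext fun b => (hw b).symm
    rw [this]
    exact hw'
  · intro hS
    exact ⟨fun b => f b v, fun b => rfl, hS⟩

theorem DF.subst (hN : NatDef R) [Finite β] {F : (β → ℕ) → ℕ} (h : DF R F)
    {f : β → (α → ℕ) → ℕ} (hf : ∀ b, DF R (f b)) : DF R (fun v : α → ℕ => F (fun b => f b v)) := by
  have := D.subst hN (β := Option β) (α := Option α) h
    (f := fun o v => o.elim (v none) (fun b => f b (fun i => v (some i)))) (by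
      intro o
      rcases o with _ | b
      · refine D.of_E (E.eq (ET.var none) (ET.var (some none))) fun v => ?_
        exact Nat.cast_inj
      · exact (hf b).lift)
  exact this

theorem DF.var (i : α) : DF R (fun v : α → ℕ => v i) :=
  D.of_E (E.eq (ET.var none) (ET.var (some i))) fun v => Nat.cast_inj

theorem DF.zero : DF R (fun _ : α → ℕ => 0) :=
  D.of_E (E.eq (ET.var none) ET.zero) fun v => by simp

theorem DF.one : DF R (fun _ : α → ℕ => 1) :=
  D.of_E (E.eq (ET.var none) ET.one) fun v => by simp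

theorem D.eq (hN : NatDef R) {f g : (α → ℕ) → ℕ} (hf : DF R f) (hg : DF R g) :
    D R (fun v => f v = g v) := by
  have h : D R (fun v : Fin 2 → ℕ => v 0 = v 1) :=
    D.of_E (E.eq (ET.var 0) (ET.var 1)) fun v => Nat.cast_inj
  exact D.subst hN h (f := ![f, g]) (by
    intro b
    fin_cases b
    · exact hf
    · exact hg)

theorem DF.add (hN : NatDef R) {f g : (α → ℕ) → ℕ} (hf : DF R f) (hg : DF R g) :
    DF R (fun v => f v + g v) := by
  have h : DF R (fun v : Fin 2 → ℕ => v 0 + v 1) :=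
    D.of_E (E.eq (ET.var none) (ET.add (ET.var (some 0)) (ET.var (some 1)))) fun v => by
      rw [← Nat.cast_add]
      exact Nat.cast_inj
  exact DF.subst hN h (f := ![f, g]) (by
    intro b
    fin_cases b
    · exact hf
    · exact hg)

theorem DF.mul (hN : NatDef R) {f g : (α → ℕ) → ℕ} (hf : DF R f) (hg : DF R g) :
    DF R (fun v => f v * g v) := by
  have h : DF R (fun v : Fin 2 → ℕ => v 0 * v 1) :=
    D.of_E (E.eq (ET.var none) (ET.mul (ET.var (some 0)) (ET.var (some 1)))) fun v => by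
      rw [← Nat.cast_mul]
      exact Nat.cast_inj
  exact DF.subst hN h (f := ![f, g]) (by
    intro b
    fin_cases b
    · exact hf
    · exact hg)

theorem D.lt (hN : NatDef R) {f g : (α → ℕ) → ℕ} (hf : DF R f) (hg : DF R g) :
    D R (fun v => f v < g v) := by
  refine (D.ex hN (S := fun v x => f v + x + 1 = g v) ?_).congr fun v => ?_
  · exact D.eq hN (DF.add hN (DF.add hN hf.lift (DF.var none)) DF.one) hg.lift
  · constructor
    · rintro ⟨x, hx⟩
      omega
    · intro h
      exact ⟨g v - f v - 1, by omega⟩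

/-- A function is definable if its graph is definable by a relation. -/
theorem DF.of_graph {F : (α → ℕ) → ℕ} {S : (Option α → ℕ) → Prop} (h : D R S)
    (e : ∀ v, S v ↔ v none = F (fun i => v (some i))) : DF R F := h.congr e

theorem DF.pair (hN : NatDef R) {f g : (α → ℕ) → ℕ} (hf : DF R f) (hg : DF R g) :
    DF R (fun v => Nat.pair (f v) (g v)) := by
  have h : DF R (fun v : Fin 2 → ℕ => Nat.pair (v 0) (v 1)) := by
    have v0 : DF R (fun v : Option (Fin 2) → ℕ => v (some 0)) := DF.var _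
    have v1 : DF R (fun v : Option (Fin 2) → ℕ => v (some 1)) := DF.var _
    have vn : DF R (fun v : Option (Fin 2) → ℕ => v none) := DF.var _
    refine (((D.lt hN v0 v1).and (D.eq hN vn (DF.add hN (DF.mul hN v1 v1) v0))).or
      ((D.lt hN v0 v1).not.and (D.eq hN vn
        (DF.add hN (DF.add hN (DF.mul hN v0 v0) v0) v1)))).congr fun v => ?_
    unfold Nat.pair
    beta_reduce
    split_ifs with hlt
    · simp [hlt]
    · simp [hlt]
  exact DF.subst hN h (f := ![f, g]) (by
    intro b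
    fin_cases b
    · exact hf
    · exact hg)

theorem DF.unpair₁ (hN : NatDef R) {f : (α → ℕ) → ℕ} (hf : DF R f) :
    DF R (fun v => (Nat.unpair (f v)).1) := by
  refine (D.ex hN (S := fun (v : Option α → ℕ) x => f (fun i => v (some i)) = Nat.pair (v none) x)
    ?_).congr fun v => ?_
  · exact D.eq hN hf.lift.lift (DF.pair hN (DF.var _) (DF.var _))
  · constructor
    · rintro ⟨x, hx⟩
      beta_reduce
      rw [hx, Nat.unpair_pair]
    · intro h
      exact ⟨(Nat.unpair (f fun i => v (some i))).2, by rw [h, Nat.pair_unpair]⟩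

theorem DF.unpair₂ (hN : NatDef R) {f : (α → ℕ) → ℕ} (hf : DF R f) :
    DF R (fun v => (Nat.unpair (f v)).2) := by
  refine (D.ex hN (S := fun (v : Option α → ℕ) x => f (fun i => v (some i)) = Nat.pair x (v none))
    ?_).congr fun v => ?_
  · exact D.eq hN hf.lift.lift (DF.pair hN (DF.var _) (DF.var _))
  · constructor
    · rintro ⟨x, hx⟩
      beta_reduce
      rw [hx, Nat.unpair_pair]
    · intro h
      exact ⟨(Nat.unpair (f fun i => v (some i))).1, by rw [h, Nat.pair_unpair]⟩

/-- Remainders modulo positive numbers. -/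
theorem DF.mod_succ (hN : NatDef R) {f g : (α → ℕ) → ℕ} (hf : DF R f) (hg : DF R g) :
    DF R (fun v => f v % (g v + 1)) := by
  refine ((D.ex hN (S := fun (v : Option α → ℕ) x =>
      f (fun i => v (some i)) = (g (fun i => v (some i)) + 1) * x + v none) ?_).and
    (D.lt hN (f := fun (v : Option α → ℕ) => v none)
      (g := fun v => g (fun i => v (some i)) + 1) (DF.var _)
      (DF.add hN hg.lift DF.one))).congr fun v => ?_
  · exact D.eq hN hf.lift.lift
      (DF.add hN (DF.mul hN (DF.add hN hg.lift.lift DF.one) (DF.var _)) (DF.var _))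
  · constructor
    · rintro ⟨⟨x, hx⟩, hlt⟩
      beta_reduce
      rw [hx, Nat.mul_add_mod, Nat.mod_eq_of_lt hlt]
    · intro h
      refine ⟨⟨f (fun i => v (some i)) / (g (fun i => v (some i)) + 1), ?_⟩, ?_⟩
      · rw [h, Nat.div_add_mod]
      · rw [h]
        exact Nat.mod_lt _ (Nat.succ_pos _)

theorem DF.beta (hN : NatDef R) {f g : (α → ℕ) → ℕ} (hf : DF R f) (hg : DF R g) :
    DF R (fun v => Nat.beta (f v) (g v)) := by
  unfold Nat.beta
  exact DF.mod_succ hN (DF.unpair₁ hN hf)
    (DF.mul hN (DF.add hN hg DF.one) (DF.unpair₂ hN hf))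

end Nat

end Pool.Agent.RingDef
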