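import Pool.Agent.Lib_helper93.RingDef.Basic

set_option autoImplicit false
set_option linter.unusedSectionVars false
set_option linter.unusedVariables false

/-!
# Partial recursive functions are definable in a ring in which `ℕ` is definable
-/

namespace Pool.Agent.RingDef

open FirstOrder FirstOrder.Ring FirstOrder.Language

variable {R : Type} [CommRing R] [CharZero R] [CompatibleRing R] {α β : Type}

/-- Partial functions with definable graph. -/
def DP (R : Type) [CommRing R] [CompatibleRing R] (f : ℕ →. ℕ) : Prop :=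
  D R (fun v : Fin 2 → ℕ => v 1 ∈ f (v 0))

theorem DP.mem (hN : NatDef R) {f : ℕ →. ℕ} (hf : DP R f) {s t : (α → ℕ) → ℕ} (hs : DF R s)
    (ht : DF R t) : D R (fun v => t v ∈ f (s v)) :=
  D.subst hN hf (f := ![s, t]) (by
    intro b
    fin_cases b
    · exact hs
    · exact ht)

theorem mem_prec_iff (f g : ℕ →. ℕ) (a n s : ℕ) :
    s ∈ (Nat.rec (f a) (fun y IH => do let i ← IH; g (Nat.pair a (Nat.pair y i))) n : Part ℕ) ↔
    ∃ m, (Nat.beta m 0 ∈ f a ∧
      (∀ k, k < n → Nat.beta m (k + 1) ∈ g (Nat.pair a (Nat.pair k (Nat.beta m k))))) ∧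
      Nat.beta m n = s := by
  constructor
  · intro h
    have key : ∀ n s, s ∈ (Nat.rec (f a)
        (fun y IH => do let i ← IH; g (Nat.pair a (Nat.pair y i))) n : Part ℕ) →
        ∃ σ : ℕ → ℕ, σ 0 ∈ f a ∧
          (∀ k, k < n → σ (k + 1) ∈ g (Nat.pair a (Nat.pair k (σ k)))) ∧ σ n = s := by
      intro n
      induction n with
      | zero =>
        intro s hs
        exact ⟨fun _ => s, hs, fun k hk => absurd hk (Nat.not_lt_zero k), rfl⟩
      | succ n ih =>
        intro s hs
        obtain ⟨i, hi, hs'⟩ := Part.mem_bind_iff.mp hs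
        obtain ⟨σ, h0, h1, h2⟩ := ih i hi
        refine ⟨Function.update σ (n + 1) s, ?_, ?_, ?_⟩
        · rw [Function.update_of_ne (by omega)]
          exact h0
        · intro k hk
          rcases Nat.lt_succ_iff_lt_or_eq.mp hk with hk | rfl
          · rw [Function.update_of_ne (by omega), Function.update_of_ne (by omega)]
            exact h1 k hk
          · rw [Function.update_self, Function.update_of_ne (by omega), h2]
            exact hs'
        · rw [Function.update_self]
    obtain ⟨σ, h0, h1, h2⟩ := key n s h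
    let l : List ℕ := List.ofFn (fun i : Fin (n + 1) => σ i)
    have hl : l.length = n + 1 := by simp [l]
    have hb : ∀ k, k ≤ n → Nat.beta (Nat.unbeta l) k = σ k := by
      intro k hk
      have h := Nat.beta_unbeta_coe l ⟨k, by omega⟩
      have h2 : (Nat.unbeta l).beta k = l[k]'(by omega) := h
      rw [h2]
      exact List.getElem_ofFn _
    refine ⟨Nat.unbeta l, ⟨?_, ?_⟩, ?_⟩
    · rw [hb 0 (Nat.zero_le n)]
      exact h0
    · intro k hk
      rw [hb (k + 1) hk, hb k hk.le]
      exact h1 k hk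
    · rw [hb n le_rfl, h2]
  · rintro ⟨m, ⟨h0, h1⟩, rfl⟩
    have key : ∀ k, k ≤ n → Nat.beta m k ∈ (Nat.rec (f a)
        (fun y IH => do let i ← IH; g (Nat.pair a (Nat.pair y i))) k : Part ℕ) := by
      intro k
      induction k with
      | zero => exact fun _ => h0
      | succ k ih =>
        intro hk
        exact Part.mem_bind_iff.mpr ⟨_, ih (by omega), h1 k hk⟩
    exact key n le_rfl

theorem DP.of_partrec (hN : NatDef R) {f : ℕ →. ℕ} (hf : Nat.Partrec f) : DP R f := by
  induction hf with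
  | zero =>
    refine (D.eq hN (DF.var 1) DF.zero).congr fun v => ?_
    simp [pure, PFun.pure]
  | succ =>
    refine (D.eq hN (DF.var 1) (DF.add hN (DF.var 0) DF.one)).congr fun v => ?_
    simp
  | left =>
    refine (D.eq hN (DF.var 1) (DF.unpair₁ hN (DF.var 0))).congr fun v => ?_
    simp
  | right =>
    refine (D.eq hN (DF.var 1) (DF.unpair₂ hN (DF.var 0))).congr fun v => ?_
    simp
  | @pair f g _ _ hf hg =>
    refine (D.ex hN (S := fun (v : Fin 2 → ℕ) x => ∃ y, (x ∈ f (v 0) ∧ y ∈ g (v 0)) ∧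
      v 1 = Nat.pair x y) ?_).congr fun v => ?_
    · refine D.ex hN (S := fun (v : Option (Fin 2) → ℕ) y =>
        (v none ∈ f (v (some 0)) ∧ y ∈ g (v (some 0))) ∧ v (some 1) = Nat.pair (v none) y) ?_
      exact ((DP.mem hN hf (DF.var _) (DF.var _)).and (DP.mem hN hg (DF.var _) (DF.var _))).and
        (D.eq hN (DF.var _) (DF.pair hN (DF.var _) (DF.var _)))
    · simp only [Seq.seq, Functor.map, Part.mem_bind_iff, Part.mem_map_iff]
      constructor
      · rintro ⟨x, y, ⟨hx, hy⟩, e⟩
        exact ⟨_, ⟨x, hx, rfl⟩, y, hy, e.symm⟩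
      · rintro ⟨_, ⟨x, hx, rfl⟩, y, hy, e⟩
        exact ⟨x, y, ⟨hx, hy⟩, e.symm⟩
  | @comp f g _ _ hf hg =>
    refine (D.ex hN (S := fun (v : Fin 2 → ℕ) x => x ∈ g (v 0) ∧ v 1 ∈ f x) ?_).congr
      fun v => ?_
    · exact (DP.mem hN hg (DF.var _) (DF.var _)).and (DP.mem hN hf (DF.var _) (DF.var _))
    · exact Part.mem_bind_iff.symm
  | @prec f g _ _ hf hg =>
    refine (D.ex hN (S := fun (v : Fin 2 → ℕ) m =>
      (Nat.beta m 0 ∈ f (v 0).unpair.1 ∧
      (∀ k, k < (v 0).unpair.2 → Nat.beta m (k + 1) ∈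
        g (Nat.pair (v 0).unpair.1 (Nat.pair k (Nat.beta m k))))) ∧
      Nat.beta m (v 0).unpair.2 = v 1) ?_).congr fun v => ?_
    · refine ((DP.mem hN hf ?_ ?_).and (D.all hN (S := fun (v : Option (Fin 2) → ℕ) k =>
        k < (v (some 0)).unpair.2 → Nat.beta (v none) (k + 1) ∈
          g (Nat.pair (v (some 0)).unpair.1 (Nat.pair k (Nat.beta (v none) k)))) ?_)).and
          (D.eq hN ?_ ?_)
      · exact DF.unpair₁ hN (DF.var _)
      · exact DF.beta hN (DF.var _) DF.zero
      · refine (D.lt hN (DF.var _) (DF.unpair₂ hN (DF.var _))).imp (DP.mem hN hg ?_ ?_)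
        · exact DF.pair hN (DF.unpair₁ hN (DF.var _))
            (DF.pair hN (DF.var _) (DF.beta hN (DF.var _) (DF.var _)))
        · exact DF.beta hN (DF.var _) (DF.add hN (DF.var _) DF.one)
      · exact DF.beta hN (DF.var _) (DF.unpair₂ hN (DF.var _))
      · exact DF.var _
    · exact (mem_prec_iff f g _ _ _).symm
  | @rfind f _ hf =>
    refine (((DP.mem hN hf (s := fun v : Fin 2 → ℕ => Nat.pair (v 0) (v 1)) (t := fun _ => 0)
      (DF.pair hN (DF.var _) (DF.var _)) DF.zero)).and (D.all hN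
      (S := fun (v : Fin 2 → ℕ) k => k < v 1 → ∃ x, x + 1 ∈ f (Nat.pair (v 0) k)) ?_)).congr
      fun v => ?_
    · refine (D.lt hN (DF.var _) (DF.var _)).imp (D.ex hN
        (S := fun (v : Option (Fin 2) → ℕ) x => x + 1 ∈ f (Nat.pair (v (some 0)) (v none))) ?_)
      exact DP.mem hN hf (DF.pair hN (DF.var _) (DF.var _)) (DF.add hN (DF.var _) DF.one)
    · refine Iff.trans ?_
        (Nat.mem_rfind (p := fun n => (fun m => decide (m = 0)) <$> f (Nat.pair (v 0) n))).symm
      simp only [Functor.map, Part.mem_map_iff]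
      constructor
      · rintro ⟨h0, h1⟩
        refine ⟨⟨0, h0, by simp⟩, ?_⟩
        intro k hk
        obtain ⟨x, hx⟩ := h1 k hk
        exact ⟨x + 1, hx, by simp⟩
      · rintro ⟨⟨x, hx, hx'⟩, h1⟩
        have : x = 0 := by simpa using hx'
        subst this
        refine ⟨hx, ?_⟩
        intro k hk
        obtain ⟨y, hy, hy'⟩ := h1 hk
        have : y ≠ 0 := by simpa using hy'
        obtain ⟨z, rfl⟩ := Nat.exists_eq_succ_of_ne_zero this
        exact ⟨z, hy⟩

end Pool.Agent.RingDef
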